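import Pool.Agent.MP_6b3e96_gt.H77.Spec

/-!
Green's identity for test functions and removal of a point singularity.
-/

open scoped ContDiff Topology RealInnerProductSpace MeasureTheory Real
open Set Filter Metric MeasureTheory Complex

noncomputable section

namespace Pool.Agent.MP_6b3e96_gt.H98

open Pool.Agent.MP_6b3e96_gt.H77

/-- Directional derivative. -/
def D (v : ℂ) (f : ℂ → ℝ) (z : ℂ) : ℝ := fderiv ℝ f z v

theorem lap_eq (f : ℂ → ℝ) : lap f = fun z => D 1 (D 1 f) z + D I (D I f) z := rfl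

variable {O : Set ℂ} {u f g h ψ : ℂ → ℝ}

theorem D_cdOn {n m : WithTop ℕ∞} (hO : IsOpen O) (hu : ContDiffOn ℝ n u O) (hn : m + 1 ≤ n)
    (v : ℂ) : ContDiffOn ℝ m (D v u) O :=
  (hu.fderiv_of_isOpen hO hn).clm_apply contDiffOn_const

theorem D_cd (hg : ContDiff ℝ ∞ g) (v : ℂ) : ContDiff ℝ ∞ (D v g) :=
  contDiffOn_univ.1 (D_cdOn isOpen_univ hg.contDiffOn le_rfl v)

theorem lap_cd (hg : ContDiff ℝ ∞ g) : ContDiff ℝ ∞ (lap g) :=
  (D_cd (D_cd hg 1) 1).add (D_cd (D_cd hg I) I)

theorem test_D (h : Test O ψ) (v : ℂ) : Test O (D v ψ) :=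
  ⟨D_cd h.1 v, h.2.1.fderiv_apply ℝ v, (tsupport_fderiv_apply_subset ℝ v).trans h.2.2⟩

theorem test_lap (h : Test O ψ) : Test O (lap ψ) :=
  have a := test_D (test_D h 1) 1
  have b := test_D (test_D h I) I
  ⟨lap_cd h.1, a.2.1.add b.2.1, (tsupport_add _ _).trans (union_subset a.2.2 b.2.2)⟩

theorem cd_mul {n : WithTop ℕ∞} (hO : IsOpen O) (hu : ContDiffOn ℝ n u O) (hψ : ContDiff ℝ n ψ)
    (hs : tsupport ψ ⊆ O) : ContDiff ℝ n fun z => u z * ψ z :=
  contDiff_iff_contDiffAt.2 fun z => by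
    by_cases hz : z ∈ O
    · exact (hu.contDiffAt (hO.mem_nhds hz)).mul hψ.contDiffAt
    · refine (contDiffAt_const (c := 0)).congr_of_eventuallyEq ?_
      filter_upwards [notMem_tsupport_iff_eventuallyEq.1 fun a => hz (hs a)] with y hy
      simp [hy]

theorem cont_mul (hO : IsOpen O) (hu : ContinuousOn u O) (hψ : Test O ψ) :
    Continuous fun z => u z * ψ z :=
  contDiff_zero.1 (cd_mul hO (contDiffOn_zero.2 hu) (contDiff_zero.2 hψ.1.continuous) hψ.2.2)

theorem int_mul (hO : IsOpen O) (hu : ContinuousOn u O) (hψ : Test O ψ) :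
    Integrable fun z => u z * ψ z :=
  (cont_mul hO hu hψ).integrable_of_hasCompactSupport hψ.2.1.mul_left

theorem ibp (hO : IsOpen O) (hu : ContDiffOn ℝ 1 u O) (hψ : Test O ψ) (v : ℂ) :
    ∫ z, u z * D v ψ z = -∫ z, D v u z * ψ z :=
  integral_mul_fderiv_eq_neg_fderiv_mul_of_integrable
    (int_mul hO (D_cdOn (m := 0) hO hu (by simp) v).continuousOn hψ)
    (int_mul hO hu.continuousOn (test_D hψ v)) (int_mul hO hu.continuousOn hψ)
    (fun _ hx => (hu.contDiffAt (hO.mem_nhds (hψ.2.2 hx))).differentiableAt (by simp))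
    fun _ _ => hψ.1.differentiable (by simp) _

theorem green : GreenStmt := fun O u ψ hO hu hψ => by
  have key : ∀ v, ∫ z, u z * D v (D v ψ) z = ∫ z, D v (D v u) z * ψ z := fun v => by
    rw [ibp hO (hu.of_le (by norm_num)) (test_D hψ v),
      ibp hO (D_cdOn hO hu (by norm_num) v) hψ, neg_neg]
  have i1 := fun v => int_mul hO hu.continuousOn (test_D (test_D hψ v) v)
  have i2 := fun v => int_mul hO (D_cdOn (m := 0) hO (D_cdOn (m := 1) hO hu (by norm_num) v)
    (by norm_num) v).continuousOn hψ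
  simp only [lap_eq, mul_add, add_mul]
  rw [integral_add (i1 1) (i1 I), integral_add (i2 1) (i2 I), key, key]

theorem D_add (hg : ContDiff ℝ ∞ g) (hh : ContDiff ℝ ∞ h) (v : ℂ) :
    D v (fun z => g z + h z) = fun z => D v g z + D v h z := funext fun z => by
  rw [D, fderiv_fun_add (hg.differentiable (by simp) z) (hh.differentiable (by simp) z)]; rfl

theorem D_sub (hg : ContDiff ℝ ∞ g) (hh : ContDiff ℝ ∞ h) (v : ℂ) :
    D v (fun z => g z - h z) = fun z => D v g z - D v h z := funext fun z => by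
  rw [D, fderiv_fun_sub (hg.differentiable (by simp) z) (hh.differentiable (by simp) z)]; rfl

theorem D_mul (hg : ContDiff ℝ ∞ g) (hh : ContDiff ℝ ∞ h) (v : ℂ) :
    D v (fun z => g z * h z) = fun z => g z * D v h z + h z * D v g z := funext fun z => by
  rw [D, fderiv_fun_mul (hg.differentiable (by simp) z) (hh.differentiable (by simp) z)]; rfl

theorem D_const (k : ℝ) (v : ℂ) : D v (fun _ => k) = fun _ => 0 := funext fun z => by simp [D]

theorem cd_aff (hg : ContDiff ℝ ∞ g) (c : ℝ) (p : ℂ) : ContDiff ℝ ∞ fun z => g (c • (p - z)) :=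
  hg.comp (by fun_prop)

theorem D_aff (hg : ContDiff ℝ ∞ g) (c : ℝ) (p v : ℂ) :
    D v (fun z => g (c • (p - z))) = fun z => -c * D v g (c • (p - z)) := funext fun z => by
  have : HasFDerivAt (fun z => g (c • (p - z))) _ z :=
    (hg.differentiable (by simp) (c • (p - z))).hasFDerivAt.comp z
      (((hasFDerivAt_id z).const_sub p).const_smul c)
  rw [D, this.fderiv]
  simp only [D, ContinuousLinearMap.comp_apply, smul_apply, map_smul,
    neg_apply, map_neg, ContinuousLinearMap.id_apply, smul_eq_mul]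
  ring

theorem lap_sub (hg : ContDiff ℝ ∞ g) (hh : ContDiff ℝ ∞ h) (z : ℂ) :
    lap (fun z => g z - h z) z = lap g z - lap h z := by
  simp only [lap_eq, D_sub hg hh, D_sub (D_cd hg _) (D_cd hh _)]; ring

theorem lap_mul (hg : ContDiff ℝ ∞ g) (hh : ContDiff ℝ ∞ h) (z : ℂ) :
    lap (fun z => g z * h z) z =
      lap g z * h z + 2 * (D 1 g z * D 1 h z + D I g z * D I h z) + g z * lap h z := by
  simp only [lap_eq, D_mul hg hh, D_add (hg.mul (D_cd hh _)) (hh.mul (D_cd hg _)),
    D_mul hg (D_cd hh _), D_mul hh (D_cd hg _)]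
  ring

theorem lap_aff (hg : ContDiff ℝ ∞ g) (c : ℝ) (p z : ℂ) :
    lap (fun z => g (c • (p - z))) z = c ^ 2 * lap g (c • (p - z)) := by
  simp only [lap_eq, D_aff hg, D_mul contDiff_const (cd_aff (D_cd hg _) c p), D_aff (D_cd hg _),
    D_const]
  ring

/-- Concentration at a point. -/
theorem peak {K : ℝ × ℂ × ℂ → ℝ} (hK : Continuous K) {S : Set ℂ} (hS : IsCompact S)
    (h0 : ∀ t z, ∀ w ∉ S, K (t, z, w) = 0) (p : ℂ) :
    Tendsto (fun c : ℝ => ∫ z, c ^ 2 * K (c⁻¹, z, c • (p - z))) atTop (𝓝 (∫ w, K (0, p, w))) := by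
  have h1 : Continuous fun t : ℝ => ∫ w, K (t, p - t • w, w) := by
    simp only [← fun t : ℝ => setIntegral_eq_integral_of_forall_compl_eq_zero
      (f := fun w => K (t, p - t • w, w)) (μ := volume) fun w hw => h0 _ _ w hw]
    exact continuous_parametric_integral_of_continuous (f := fun (t : ℝ) w => K (t, p - t • w, w))
      (hK.comp (f := fun q : ℝ × ℂ => (q.1, p - q.1 • q.2, q.2)) (by fun_prop)) hS
  have h2 := (h1.tendsto 0).comp tendsto_inv_atTop_zero
  simp only [zero_smul, sub_zero] at h2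
  refine h2.congr' ?_
  filter_upwards [eventually_gt_atTop 0] with c hc
  have h3 := Measure.integral_comp_smul volume (fun w => K (c⁻¹, p - c⁻¹ • w, w)) c
  rw [← integral_sub_left_eq_self _ _ p] at h3
  simp only [inv_smul_smul₀ hc.ne', sub_sub_cancel, finrank_real_complex, smul_eq_mul] at h3
  rw [integral_const_mul, h3, abs_of_pos (by positivity), mul_inv_cancel_left₀ (by positivity)]
  rfl

/-- A point is removable for the weak equation. -/
theorem remov (hO : IsOpen O) (hu : ContinuousOn u O) (hf : ContinuousOn f O) {p : ℂ}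
    (H : ∀ ψ, Test (O \ {p}) ψ → ∫ z, u z * lap ψ z = ∫ z, f z * ψ z) (hψ : Test O ψ) :
    ∫ z, u z * lap ψ z = ∫ z, f z * ψ z := by
  let β : ContDiffBump (0 : ℂ) := ⟨1, 2, one_pos, one_lt_two⟩
  have hβ : Test (tsupport β) β := ⟨β.contDiff, β.hasCompactSupport, subset_rfl⟩
  have z0 : ∀ {θ}, Test (tsupport β) θ → ∀ w ∉ tsupport β, θ w = 0 := fun a w hw =>
    image_eq_zero_of_notMem_tsupport fun b => hw (a.2.2 b)
  have c0 : Continuous fun q : ℝ × ℂ × ℂ => q.2.1 := by fun_prop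
  have c1 := (cont_mul hO hu (test_lap hψ)).comp' c0
  have c2 := (cont_mul hO hf hψ).comp' c0
  have c3 := (cont_mul hO hu (test_D hψ 1)).comp' c0
  have c4 := (cont_mul hO hu (test_D hψ I)).comp' c0
  have c5 := (cont_mul hO hu hψ).comp' c0
  have c6 := β.continuous
  have c7 := (D_cd hβ.1 1).continuous
  have c8 := (D_cd hβ.1 I).continuous
  have c9 := (lap_cd hβ.1).continuous
  have := peak (K := fun q => q.1 ^ 2 * ((u q.2.1 * lap ψ q.2.1 - f q.2.1 * ψ q.2.1) * β q.2.2) -
    2 * q.1 * (u q.2.1 * D 1 ψ q.2.1 * D 1 β q.2.2 + u q.2.1 * D I ψ q.2.1 * D I β q.2.2) +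
    u q.2.1 * ψ q.2.1 * lap β q.2.2) 
    ((((by fun_prop : Continuous fun q : ℝ × ℂ × ℂ => q.1 ^ 2).mul
      ((c1.sub c2).mul (by fun_prop))).sub ((by fun_prop : Continuous fun q : ℝ × ℂ × ℂ =>
        2 * q.1).mul ((c3.mul (by fun_prop)).add (c4.mul (by fun_prop))))).add
      (c5.mul (by fun_prop))) β.hasCompactSupport (fun t z w hw => by
      simp [z0 hβ w hw, z0 (test_D hβ _) w hw, z0 (test_lap hβ) w hw]) p
  have e0 : ∫ w, lap β w = 0 := by
    simpa [lap_eq, D_const] using green univ (fun _ => 1) β isOpen_univ contDiffOn_const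
      ⟨hβ.1, hβ.2.1, subset_univ _⟩
  simp only [ne_eq, OfNat.ofNat_ne_zero, not_false_eq_true, zero_pow, zero_mul, mul_zero,
    sub_zero, zero_add, integral_const_mul, e0] at this
  refine sub_eq_zero.1 (tendsto_nhds_unique (tendsto_const_nhds.congr' ?_) this)
  filter_upwards [eventually_gt_atTop 0] with c hc
  have t1 : Test O fun z => ψ z * β (c • (p - z)) :=
    ⟨hψ.1.mul (cd_aff hβ.1 c p), hψ.2.1.mul_right, tsupport_mul_subset_left.trans hψ.2.2⟩
  have t2 : Test (O \ {p}) fun z => ψ z - ψ z * β (c • (p - z)) := by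
    simp only [← mul_one_sub]
    refine ⟨hψ.1.mul (contDiff_const.sub (cd_aff hβ.1 c p)), hψ.2.1.mul_right,
      subset_sdiff_singleton (tsupport_mul_subset_left.trans hψ.2.2)
        (notMem_tsupport_iff_eventuallyEq.2 ?_)⟩
    have : Tendsto (fun z => c • (p - z)) (𝓝 p) (𝓝 0) :=
      Continuous.tendsto' (by fun_prop) _ _ (by simp)
    filter_upwards [this.eventually β.eventuallyEq_one] with z hz
    rw [hz]; simp
  have e1 := H _ t2
  simp only [lap_sub hψ.1 t1.1, mul_sub] at e1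
  rw [integral_sub (int_mul hO hu (test_lap hψ)) (int_mul hO hu (test_lap t1)),
    integral_sub (int_mul hO hf hψ) (int_mul hO hf t1), sub_eq_sub_iff_sub_eq_sub,
    ← integral_sub (int_mul hO hu (test_lap t1)) (int_mul hO hf t1)] at e1
  rw [e1, ← integral_const_mul]
  refine integral_congr_ae (.of_forall fun z => ?_)
  simp only [lap_mul hψ.1 (cd_aff hβ.1 c p), lap_aff hβ.1, D_aff hβ.1]
  field_simp
  ring

end Pool.Agent.MP_6b3e96_gt.H98
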