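import Pool.Agent.MP_6b3e96_gt.H98.Green

/-!
Regularity of continuous weak solutions of semilinear equations in the plane.
-/

open scoped ContDiff Topology RealInnerProductSpace MeasureTheory Real Convolution
open Set Filter Metric MeasureTheory Complex

noncomputable section

namespace Pool.Agent.MP_6b3e96_gt.H98

open Pool.Agent.MP_6b3e96_gt.H77

/-- A smooth step. -/
def T (s : ℝ) : ℝ := Real.smoothTransition (2 * s - 1)

theorem T_cd : ContDiff ℝ ∞ T := Real.smoothTransition.contDiff.comp (by fun_prop)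

theorem T_one {s : ℝ} (h : 1 ≤ s) : T s = 1 := Real.smoothTransition.one_of_one_le (by linarith)

theorem T_zero {s : ℝ} (h : s ≤ 1 / 2) : T s = 0 :=
  Real.smoothTransition.zero_of_nonpos (by linarith)

/-- The derivative of the smoothed logarithm. -/
def A (s : ℝ) : ℝ := T s / s

theorem A_cd : ContDiff ℝ ∞ A := contDiff_iff_contDiffAt.2 fun s => by
  by_cases h : s = 0
  · refine (contDiffAt_const (c := 0)).congr_of_eventuallyEq ?_
    filter_upwards [Iio_mem_nhds (show s < 1 / 2 by rw [h]; norm_num)] with y hy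
    simp [A, T_zero hy.le]
  · exact T_cd.contDiffAt.div contDiffAt_id h

theorem deriv_T (s : ℝ) : deriv T s = A s + s * deriv A s := by
  have : T = fun s => s * A s := funext fun s => by
    by_cases h : s = 0
    · simp [h, T_zero]
    · rw [A, mul_div_cancel₀ _ h]
  rw [this]
  simpa using ((hasDerivAt_id' s).fun_mul (A_cd.differentiable (by simp) s).hasDerivAt).deriv

/-- The smoothed logarithm. -/
def G (s : ℝ) : ℝ := ∫ σ in (1 : ℝ)..s, A σ

theorem G_deriv (s : ℝ) : HasDerivAt G (A s) s :=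
  (A_cd.continuous.integral_hasStrictDerivAt 1 s).hasDerivAt

theorem G_cd : ContDiff ℝ ∞ G := contDiff_infty_iff_deriv.2
  ⟨fun s => (G_deriv s).differentiableAt, by rw [funext fun s => (G_deriv s).deriv]; exact A_cd⟩

theorem G_log {s : ℝ} (h : 1 ≤ s) : G s = Real.log s := by
  rw [G, intervalIntegral.integral_congr (g := fun σ => 1 / σ) fun σ hσ => by
    rw [uIcc_of_le h] at hσ; rw [A, T_one hσ.1], integral_one_div_of_pos one_pos (by linarith),
    div_one]

/-- The smoothed fundamental solution. -/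
def ph (z : ℂ) : ℝ := G (‖z‖ ^ 2)

theorem cd_rad {g : ℝ → ℝ} (h : ContDiff ℝ ∞ g) : ContDiff ℝ ∞ fun z : ℂ => g (‖z‖ ^ 2) :=
  h.comp (contDiff_norm_sq ℝ)

theorem ph_cd : ContDiff ℝ ∞ ph := cd_rad G_cd

theorem D_rad {g : ℝ → ℝ} (h : ContDiff ℝ ∞ g) (v : ℂ) :
    D v (fun z : ℂ => g (‖z‖ ^ 2)) = fun z => deriv g (‖z‖ ^ 2) * (2 * ⟪z, v⟫) :=
  funext fun z => by
    have : HasFDerivAt (fun z : ℂ => g (‖z‖ ^ 2)) _ z :=
      (h.differentiable (by simp) (‖z‖ ^ 2)).hasDerivAt.comp_hasFDerivAt z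
        (hasStrictFDerivAt_norm_sq z).hasFDerivAt
    rw [D, this.fderiv]
    simp only [smul_apply, innerSL_apply_apply, smul_eq_mul, nsmul_eq_mul, Nat.cast_ofNat]

theorem lap_ph (z : ℂ) : lap ph z = 4 * deriv T (‖z‖ ^ 2) := by
  have h1 : ∀ v : ℂ, ContDiff ℝ ∞ fun z : ℂ => 2 * ⟪z, v⟫ := fun v =>
    contDiff_const.mul (contDiff_id.inner ℝ contDiff_const)
  have h2 : ∀ v : ℂ, D v (fun z : ℂ => 2 * ⟪z, v⟫) = fun _ => 2 * ⟪v, v⟫ := fun v =>
    funext fun z => by
      have : HasFDerivAt (fun z : ℂ => 2 * ⟪z, v⟫) _ z :=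
        ((innerSL ℝ v).hasFDerivAt.const_mul 2).congr_of_eventuallyEq
          (.of_forall fun y => by simp only [innerSL_apply_apply, real_inner_comm])
      rw [D, this.fderiv]
      simp only [smul_apply, innerSL_apply_apply, smul_eq_mul]
  have h3 : ph = fun z => G (‖z‖ ^ 2) := rfl
  simp only [lap_eq, h3, D_rad G_cd, funext fun s => (G_deriv s).deriv, D_mul (cd_rad A_cd) (h1 _),
    D_rad A_cd, h2, deriv_T]
  rw [Complex.sq_norm, Complex.normSq_apply]
  simp [Complex.inner]
  ring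

theorem lap_ph_zero {z : ℂ} (h : z ∉ closedBall (0 : ℂ) 1) : lap ph z = 0 := by
  have : 1 < ‖z‖ ^ 2 := one_lt_pow₀ (by simpa using h) two_ne_zero
  rw [lap_ph, (show T =ᶠ[𝓝 _] fun _ => 1 from
    (eventually_gt_nhds this).mono fun _ h => T_one h.le).deriv_eq]
  simp

theorem lap_ph_pos : 0 < ∫ z, lap ph z := by
  obtain ⟨s, hs, e⟩ := exists_deriv_eq_slope T (show (1 / 2 : ℝ) < 1 by norm_num)
    T_cd.continuous.continuousOn (T_cd.differentiable (by simp)).differentiableOn
  refine (lap_cd ph_cd).continuous.integral_pos_of_hasCompactSupport_nonneg_nonzero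
    (x := (√s : ℝ)) (.intro (isCompact_closedBall 0 1) fun _ => lap_ph_zero) (fun z => ?_) ?_
  · rw [lap_ph]
    exact mul_nonneg (by norm_num) (Monotone.deriv_nonneg fun a b h =>
      Real.smoothTransition.monotone (by linarith))
  · rw [lap_ph, norm_real, Real.norm_eq_abs, sq_abs, Real.sq_sqrt (by linarith [hs.1]), e,
      T_one le_rfl, T_zero le_rfl]
    norm_num

/-- The difference of the gradients of the smoothed and of the true fundamental solution. -/
def Wk (z : ℂ) : ℂ →L[ℝ] ℝ := ((T (‖z‖ ^ 2) - 1) / ‖z‖ ^ 2) • 2 • innerSL ℝ z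

theorem Wk_int : Integrable Wk := by
  refine (integrableOn_ball_of_norm_le_rpow (f := Wk) (C := 2) (α := 1) (r := 1) (by simp) (by simp)
    (.of_forall fun z => ?_) ?_).integrable_of_forall_notMem_eq_zero fun z hz => ?_
  · have h1 : |T (‖z‖ ^ 2) - 1| ≤ 1 := abs_le.2 ⟨by
      linarith [show 0 ≤ T (‖z‖ ^ 2) from Real.smoothTransition.nonneg _], by
      linarith [show T (‖z‖ ^ 2) ≤ 1 from Real.smoothTransition.le_one _]⟩
    rw [Wk, norm_smul, ← Nat.cast_smul_eq_nsmul ℝ, norm_smul, innerSL_apply_norm, norm_div,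
      Real.rpow_neg_one]
    rcases eq_or_lt_of_le (norm_nonneg z) with h | h
    · simp [← h]
    · simp only [Real.norm_eq_abs, abs_pow, abs_norm, Nat.cast_ofNat, Nat.abs_ofNat]
      field_simp
      exact h1
  · exact ((T_cd.continuous.measurable.comp (by fun_prop)).sub_const 1 |>.div
      (by fun_prop)).aestronglyMeasurable.smul (Continuous.aestronglyMeasurable (by fun_prop))
  · simp [Wk, T_one (one_le_pow₀ (show 1 ≤ ‖z‖ by simpa using hz))]

/-- The compactly supported kernels. -/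
def Ek (a c : ℝ) (z : ℂ) : ℝ := ph (c • z) - ph (a • z) - (Real.log (c ^ 2) - Real.log (a ^ 2))

theorem Ek_cd (a c : ℝ) : ContDiff ℝ ∞ (Ek a c) :=
  ((ph_cd.comp (by fun_prop)).sub (ph_cd.comp (by fun_prop))).sub contDiff_const

theorem Ek_zero {r c : ℝ} (hr : 0 < r) (hc : r⁻¹ ≤ c) {z : ℂ} (h : z ∉ closedBall (0 : ℂ) r) :
    Ek r⁻¹ c z = 0 := by
  have h1 : r < ‖z‖ := by simpa using h
  have key : ∀ c, r⁻¹ ≤ c → ph (c • z) = Real.log (c ^ 2) + Real.log (‖z‖ ^ 2) := fun c hc => by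
    have h2 : 0 < c := (inv_pos.2 hr).trans_le hc
    have h3 : 1 ≤ c * ‖z‖ := by
      rw [← inv_mul_cancel₀ hr.ne']; gcongr
    rw [ph, norm_smul, Real.norm_of_nonneg h2.le, G_log (one_le_pow₀ h3), mul_pow,
      Real.log_mul (by positivity) (pow_pos (hr.trans h1) 2).ne']
  rw [Ek, key c hc, key _ le_rfl]; ring

theorem Ek_fderiv {a c : ℝ} (ha : a ≠ 0) (hc : c ≠ 0) (z : ℂ) :
    fderiv ℝ (Ek a c) z = c • Wk (c • z) - a • Wk (a • z) := by
  have key : ∀ c : ℝ, c ≠ 0 → HasFDerivAt (fun z : ℂ => ph (c • z))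
      (c • Wk (c • z) + (‖z‖ ^ 2)⁻¹ • 2 • innerSL ℝ z) z := fun c hc => by
    refine (((G_deriv (‖c • z‖ ^ 2)).comp_hasFDerivAt (c • z)
      (hasStrictFDerivAt_norm_sq (c • z)).hasFDerivAt).comp z
        ((hasFDerivAt_id z).const_smul c)).congr_fderiv (ContinuousLinearMap.ext fun v => ?_)
    simp only [Wk, A, add_apply, smul_apply, innerSL_apply_apply, ContinuousLinearMap.comp_apply,
      ContinuousLinearMap.id_apply, real_inner_smul_left, real_inner_smul_right, norm_smul, mul_pow,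
      Real.norm_eq_abs, sq_abs, smul_eq_mul, nsmul_eq_mul]
    by_cases h : ‖z‖ = 0
    · simp [h]
    · field_simp
      ring
  exact (((key c hc).sub (key a ha)).sub_const _).fderiv.trans (add_sub_add_right_eq_sub _ _ _)

theorem lap_Ek (a c : ℝ) (x y : ℂ) : lap (fun y => Ek a c (x - y)) y =
    c ^ 2 * lap ph (c • (x - y)) - a ^ 2 * lap ph (a • (x - y)) := by
  simp only [Ek]
  rw [lap_sub ((cd_aff ph_cd c x).sub (cd_aff ph_cd a x)) contDiff_const,
    lap_sub (cd_aff ph_cd c x) (cd_aff ph_cd a x), lap_aff ph_cd, lap_aff ph_cd]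
  simp [lap_eq, D_const]

variable {O : Set ℂ} {u f : ℂ → ℝ}

/-- Gain of one derivative. -/
theorem step (hO : IsOpen O) (hu : ContinuousOn u O) {n : ℕ} (hf : ContDiffOn ℝ n f O)
    (H : ∀ ψ, Test O ψ → ∫ z, u z * lap ψ z = ∫ z, f z * ψ z) : ContDiffOn ℝ (n + 1) u O := by
  intro x0 hx0
  refine ContDiffAt.contDiffWithinAt ?_
  obtain ⟨r, hr, hO'⟩ : ∃ r > 0, closedBall x0 (3 * r) ⊆ O := by
    obtain ⟨R, a, b⟩ := nhds_basis_closedBall.mem_iff.1 (hO.mem_nhds hx0)
    exact ⟨R / 3, by positivity, by rwa [mul_div_cancel₀ _ three_ne_zero]⟩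
  let χ : ContDiffBump x0 := ⟨2 * r, 3 * r, by positivity, by linarith⟩
  have hχ : Test O χ := ⟨χ.contDiff, χ.hasCompactSupport, χ.tsupport_eq ▸ hO'⟩
  have u1 := cont_mul hO hu hχ
  have f1 := cd_mul hO hf χ.contDiff hχ.2.2
  have u2 : HasCompactSupport fun z => u z * χ z := hχ.2.1.mul_left
  have f2 : HasCompactSupport fun z => f z * χ z := hχ.2.1.mul_left
  have cut : ∀ (g : ℂ → ℝ) {θ}, Test (closedBall x0 (2 * r)) θ →
      ∫ z, g z * θ z = ∫ z, g z * χ z * θ z := fun g θ a =>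
    integral_congr_ae (.of_forall fun z => by
      by_cases c : z ∈ closedBall x0 (2 * r)
      · simp [χ.one_of_mem_closedBall c]
      · simp [image_eq_zero_of_notMem_tsupport fun b => c (a.2.2 b)])
  have ux : ∀ x ∈ ball x0 r, u x * χ x = u x := fun x hx => by
    rw [χ.one_of_mem_closedBall (ball_subset_closedBall (ball_subset_ball (by
      change r ≤ 2 * r; linarith) hx)), mul_one]
  generalize hU : (fun z => u z * χ z) = U at u1 u2
  generalize hF : (fun z => f z * χ z) = F at f1 f2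
  have hr' : 0 < r⁻¹ := inv_pos.2 hr
  have hρ : ∀ c : ℝ, ContDiff ℝ ∞ fun z : ℂ => c ^ 2 * lap ph (c • z) := fun c =>
    contDiff_const.mul ((lap_cd ph_cd).comp (by fun_prop))
  have E2 : ∀ c, r⁻¹ ≤ c → HasCompactSupport (Ek r⁻¹ c) := fun c hc =>
    .intro (isCompact_closedBall 0 r) fun _ => Ek_zero hr hc
  have rep : ∀ c, r⁻¹ ≤ c → ∀ x ∈ ball x0 r,
      (F ⋆[ContinuousLinearMap.lsmul ℝ ℝ] Ek r⁻¹ c) x =
        (∫ z, c ^ 2 * (U z * lap ph (c • (x - z)))) -
          (U ⋆[ContinuousLinearMap.lsmul ℝ ℝ] fun z => r⁻¹ ^ 2 * lap ph (r⁻¹ • z)) x := by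
    intro c hc x hx
    have z0 : ∀ y ∉ closedBall x r, Ek r⁻¹ c (x - y) = 0 := fun y hy =>
      Ek_zero hr hc (by rwa [mem_closedBall_zero_iff, ← dist_eq_norm, ← mem_closedBall'])
    have t1 : Test (closedBall x0 (2 * r)) fun y => Ek r⁻¹ c (x - y) :=
      ⟨(Ek_cd _ _).comp (by fun_prop), .intro (isCompact_closedBall x r) z0,
        (closure_minimal (Function.support_subset_iff'.2 z0) isClosed_closedBall).trans
          (closedBall_subset_closedBall' (by linarith [mem_ball.1 hx]))⟩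
    have e := H _ ⟨t1.1, t1.2.1, t1.2.2.trans
      ((closedBall_subset_closedBall (by linarith)).trans hO')⟩
    rw [cut u (test_lap t1), cut f t1] at e
    have i : ∀ c : ℝ, Integrable fun z => U z * (c ^ 2 * lap ph (c • (x - z))) := fun c =>
      (u1.mul ((hρ c).continuous.comp' (by fun_prop))).integrable_of_hasCompactSupport
        u2.mul_right
    simp only [convolution_lsmul, smul_eq_mul, mul_left_comm (c ^ 2)]
    rw [← integral_sub (i c) (i _), ← hF, ← e, ← hU]
    simp only [lap_Ek, mul_sub]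
  obtain ⟨M, hM⟩ := f1.continuous.bounded_above_of_compact_support f2
  have Wi : ∀ c : ℝ, c ≠ 0 → Integrable fun z : ℂ => c • Wk (c • z) := fun c hc =>
    (Wk_int.comp_smul hc).smul c
  have Wi' : ∀ c : ℝ, c ≠ 0 → ∀ x, Integrable fun z : ℂ => F (x - z) • c • Wk (c • z) :=
    fun c hc x => (Wi c hc).bdd_smul M (f1.continuous.comp' (by fun_prop)).aestronglyMeasurable
      (.of_forall fun z => hM _)
  have der : ∀ x ∈ ball x0 r, HasFDerivAt (fun x => U x * (∫ z, lap ph z) -
      (U ⋆[ContinuousLinearMap.lsmul ℝ ℝ] fun z => r⁻¹ ^ 2 * lap ph (r⁻¹ • z)) x)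
      (-(F ⋆[ContinuousLinearMap.lsmul ℝ ℝ] fun z => r⁻¹ • Wk (r⁻¹ • z)) x) x := by
    intro x hx
    refine hasFDerivAt_of_tendstoUniformlyOnFilter (l := atTop)
      (f := fun c : ℝ => F ⋆[ContinuousLinearMap.lsmul ℝ ℝ] Ek r⁻¹ c)
      (f' := fun c x => (∫ z, F (x - z) • c • Wk (c • z)) -
        (F ⋆[ContinuousLinearMap.lsmul ℝ ℝ] fun z => r⁻¹ • Wk (r⁻¹ • z)) x)
      (g' := fun x => -(F ⋆[ContinuousLinearMap.lsmul ℝ ℝ] fun z => r⁻¹ • Wk (r⁻¹ • z)) x)
      (Metric.tendstoUniformlyOnFilter_iff.2 fun ε hε => ?_) ?_ ?_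
    · have : Tendsto (fun c : ℝ => c⁻¹ * (M * ∫ z, ‖Wk z‖)) atTop (𝓝 0) := by
        simpa using tendsto_inv_atTop_zero.mul_const (M * ∫ z, ‖Wk z‖)
      filter_upwards [((this.eventually (gt_mem_nhds hε)).and (eventually_gt_atTop 0)).prod_inl _]
        with q hq
      rw [dist_comm, dist_eq_norm, sub_neg_eq_add, sub_add_cancel]
      refine (norm_integral_le_of_norm_le ((Wi _ hq.2.ne').norm.const_mul M)
        (.of_forall fun z => ?_)).trans_lt (lt_of_eq_of_lt ?_ hq.1)
      · rw [norm_smul]; exact mul_le_mul_of_nonneg_right (hM _) (norm_nonneg _)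
      · have := Measure.integral_comp_smul volume (fun z => ‖Wk z‖) q.1
        simp only [norm_smul, integral_const_mul, this, finrank_real_complex, smul_eq_mul,
          Real.norm_of_nonneg hq.2.le, abs_of_pos (inv_pos.2 (pow_pos hq.2 2))]
        have := hq.2
        field_simp
    · filter_upwards [(eventually_ge_atTop r⁻¹).prod_inl _] with q hq
      convert (E2 _ hq).hasFDerivAt_convolution_right (ContinuousLinearMap.lsmul ℝ ℝ)
        (μ := volume) f1.continuous.locallyIntegrable ((Ek_cd _ _).of_le (by simp)) q.2 using 1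
      have hq' := (hr'.trans_le hq).ne'
      rw [convolution_lsmul_swap, ← integral_sub (Wi' _ hq' _) (Wi' _ hr'.ne' _),
        convolution_eq_swap]
      refine integral_congr_ae (.of_forall fun z => ?_)
      simp only [Ek_fderiv hr'.ne' hq']
      exact (smul_sub _ _ _).symm
    · filter_upwards [isOpen_ball.mem_nhds hx] with y hy
      have := peak (K := fun q => U q.2.1 * lap ph q.2.2) ((u1.comp' (by fun_prop)).mul
        ((lap_cd ph_cd).continuous.comp' (by fun_prop))) (isCompact_closedBall 0 1)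
        (fun _ _ w hw => by simp [lap_ph_zero hw]) y
      dsimp only at this
      rw [integral_const_mul] at this
      exact (this.sub_const _).congr'
        ((eventually_ge_atTop r⁻¹).mono fun c hc => (rep c hc y hy).symm)
  have s1 : ContDiffAt ℝ (n + 1) _ x0 := contDiffAt_succ_iff_hasFDerivAt.2
    ⟨_, ⟨_, ball_mem_nhds x0 hr, der⟩, (f2.contDiff_convolution_left _ f1
      (Wi _ hr'.ne').locallyIntegrable).neg.contDiffAt⟩
  have s2 := (HasCompactSupport.intro (isCompact_closedBall (0 : ℂ) r) (fun z hz => by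
    rw [lap_ph_zero, mul_zero]
    rw [mem_closedBall_zero_iff, norm_smul, Real.norm_of_nonneg hr'.le, inv_mul_le_one₀ hr]
    simpa using hz)).contDiff_convolution_right (ContinuousLinearMap.lsmul ℝ ℝ)
      u1.locallyIntegrable (hρ r⁻¹) (μ := volume)
  refine ((s1.add (s2.contDiffAt.of_le (mod_cast le_top))).div_const
    (∫ z, lap ph z)).congr_of_eventuallyEq ?_
  filter_upwards [ball_mem_nhds x0 hr] with x hx
  rw [sub_add_cancel, mul_div_cancel_right₀ _ lap_ph_pos.ne', ← hU]
  exact (ux x hx).symm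

theorem reg : RegStmt := fun O p u F hO hu hF H => by
  have hm : MapsTo (fun z => (z, u z)) O (O ×ˢ univ) := fun z hz => ⟨hz, trivial⟩
  have hf : ContinuousOn (fun z => F (z, u z)) O :=
    hF.continuousOn.comp (continuousOn_id.prodMk hu) hm
  have H' := fun ψ => remov hO hu hf H (ψ := ψ)
  have hs : ContDiffOn ℝ ∞ u O := contDiffOn_infty.2 fun n => by
    induction n with
    | zero => exact contDiffOn_zero.2 hu
    | succ n ih =>
      exact step hO hu ((hF.of_le (mod_cast le_top)).comp (contDiffOn_id.prodMk ih) hm) H'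
  have hD := fun v => D_cdOn (m := ∞) hO (D_cdOn (m := ∞) hO hs le_rfl v) le_rfl v
  have hl : ContinuousOn (lap u) O := ((hD 1).add (hD I)).continuousOn
  have := hO.ae_eq_zero_of_integral_contDiff_smul_eq_zero (μ := volume)
    ((hl.sub hf).locallyIntegrableOn hO.measurableSet) fun g a b c => by
      have t : Test O g := ⟨a, b, c⟩
      simp only [smul_eq_mul, mul_comm (g _), Pi.sub_apply, sub_mul]
      rw [integral_sub (int_mul hO hl t) (int_mul hO hf t), ← H' g t,
        green O u g hO (contDiffOn_infty.1 hs 2) t, sub_self]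
  exact ⟨hs, fun z hz => sub_eq_zero.1 (Measure.eqOn_open_of_ae_eq
    ((ae_restrict_iff' hO.measurableSet).2 this) hO (hl.sub hf) continuousOn_const hz)⟩

end Pool.Agent.MP_6b3e96_gt.H98
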